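import Pool.Agent.H705R2.ABC.Defs

/-!
Pairs of coprime integers `(u, v)` with `u v (u + v) ≠ 0` and a small radical, counted by their
height: a reformulation of the bounds for the number of abc-triples (helper633). The handling of the
signs follows `Pool.Agent.TH867.SQ.Pairs`.
-/

set_option autoImplicit false

namespace Pool.Agent.N633.P1

open Finset Pool.Agent.H785R2.ABC Pool.Agent.H705R2.ABC

/-- the logarithm of the radical -/
noncomputable def lr (n : ℕ) : ℝ := ∑ p ∈ n.primeFactors, Real.log (p : ℝ)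

theorem lr_nonneg (n : ℕ) : 0 ≤ lr n := Finset.sum_nonneg fun p _ => Real.log_natCast_nonneg p

theorem lr_dvd {m n : ℕ} (hn : n ≠ 0) (h : m ∣ n) : lr m ≤ lr n :=
  Finset.sum_le_sum_of_subset_of_nonneg (Nat.primeFactors_mono h hn)
    fun p _ _ => Real.log_natCast_nonneg p

theorem lr_mul (m n : ℕ) (hm : m ≠ 0) (hn : n ≠ 0) : lr (m * n) ≤ lr m + lr n := by
  classical
  unfold lr
  rw [Nat.primeFactors_mul hm hn]
  have h := Finset.sum_union_inter (s₁ := m.primeFactors) (s₂ := n.primeFactors)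
    (f := fun p : ℕ => Real.log (p : ℝ))
  have h2 : 0 ≤ ∑ p ∈ m.primeFactors ∩ n.primeFactors, Real.log (p : ℝ) :=
    Finset.sum_nonneg fun p _ => Real.log_natCast_nonneg p
  linarith

theorem log_rad (n : ℕ) : Real.log (rad n) = lr n := by
  unfold rad lr
  rw [Nat.cast_prod, Real.log_prod]
  intro p hp
  have := (Nat.prime_of_mem_primeFactors hp).pos
  positivity

theorem lr_le_log {n : ℕ} (hn : n ≠ 0) : lr n ≤ Real.log n := by
  rw [← log_rad]
  refine Real.log_le_log ?_ ?_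
  · have : 0 < rad n := Finset.prod_pos fun p hp => (Nat.prime_of_mem_primeFactors hp).pos
    exact_mod_cast this
  · exact_mod_cast Nat.le_of_dvd (Nat.pos_of_ne_zero hn) (Nat.prod_primeFactors_dvd n)

theorem lr_coprime_mul {m n : ℕ} (h : Nat.Coprime m n) : lr (m * n) = lr m + lr n := by
  classical
  unfold lr
  rw [h.primeFactors_mul, Finset.sum_union h.disjoint_primeFactors]

/-- a triple formed by `x`, `y`, `z` in some order -/
structure Srt (t : ℕ × ℕ × ℕ) (x y z : ℕ) : Prop where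
  tr : IsABCTriple t.1 t.2.1 t.2.2
  ix : x = t.1 ∨ x = t.2.1 ∨ x = t.2.2
  iy : y = t.1 ∨ y = t.2.1 ∨ y = t.2.2
  iz : z = t.1 ∨ z = t.2.1 ∨ z = t.2.2
  sm : lr (t.1 * t.2.1 * t.2.2) = lr x + lr y + lr z

theorem srt_add {x y z : ℕ} (hx : x ≠ 0) (hy : y ≠ 0) (h : x + y = z) (hc : Nat.Coprime x y) :
    Srt (x, y, z) x y z := by
  subst h
  have h1 : Nat.Coprime x (x + y) := by simpa using hc
  have h2 : Nat.Coprime y (x + y) := by simpa using hc.symm
  refine ⟨⟨Nat.pos_of_ne_zero hx, Nat.pos_of_ne_zero hy, by show 0 < x + y; omega, rfl, hc, h1, h2⟩,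
    Or.inl rfl, Or.inr (Or.inl rfl), Or.inr (Or.inr rfl), ?_⟩
  show lr (x * y * (x + y)) = _
  rw [lr_coprime_mul (Nat.Coprime.mul_left h1 h2), lr_coprime_mul hc]

theorem Srt.perm1 {t : ℕ × ℕ × ℕ} {x y z : ℕ} (h : Srt t x y z) : Srt t y z x :=
  ⟨h.tr, h.iy, h.iz, h.ix, by rw [h.sm]; ring⟩

/-- the triple of absolute values of `u`, `v`, `u + v` -/
theorem srt_int {u v : ℤ} (hc : IsCoprime u v) (hu : u ≠ 0) (hv : v ≠ 0) (hs : u + v ≠ 0) :
    ∃ t, Srt t u.natAbs v.natAbs (u + v).natAbs ∧ max u.natAbs v.natAbs ≤ t.2.2 ∧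
      t.2.2 ≤ u.natAbs + v.natAbs := by
  have hcn : Nat.Coprime u.natAbs v.natAbs := Int.isCoprime_iff_gcd_eq_one.1 hc
  have hc2 : Nat.Coprime v.natAbs (u + v).natAbs := by
    have : IsCoprime v (u + v) := by
      have h1 : IsCoprime v u := hc.symm
      have := (IsCoprime.add_mul_left_right_iff (x := v) (y := u) (z := 1)).2 h1
      rwa [mul_one] at this
    exact Int.isCoprime_iff_gcd_eq_one.1 this
  have hc3 : Nat.Coprime (u + v).natAbs u.natAbs := by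
    have : IsCoprime u (u + v) := by
      have := (IsCoprime.add_mul_left_right_iff (x := u) (y := v) (z := 1)).2 hc
      rwa [mul_one, add_comm] at this
    exact (Int.isCoprime_iff_gcd_eq_one.1 this.symm)
  have hu' : u.natAbs ≠ 0 := Int.natAbs_ne_zero.2 hu
  have hv' : v.natAbs ≠ 0 := Int.natAbs_ne_zero.2 hv
  have hs' : (u + v).natAbs ≠ 0 := Int.natAbs_ne_zero.2 hs
  have hcase : u.natAbs + v.natAbs = (u + v).natAbs ∨ v.natAbs + (u + v).natAbs = u.natAbs ∨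
      (u + v).natAbs + u.natAbs = v.natAbs := by omega
  rcases hcase with h | h | h
  · refine ⟨_, srt_add hu' hv' h hcn, ?_, ?_⟩
    · show max u.natAbs v.natAbs ≤ (u + v).natAbs
      omega
    · show (u + v).natAbs ≤ u.natAbs + v.natAbs
      omega
  · refine ⟨_, (srt_add hv' hs' h hc2).perm1.perm1, ?_, ?_⟩
    · show max u.natAbs v.natAbs ≤ u.natAbs
      omega
    · show u.natAbs ≤ u.natAbs + v.natAbs
      omega
  · refine ⟨_, (srt_add hs' hu' h hc3).perm1, ?_, ?_⟩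
    · show max u.natAbs v.natAbs ≤ v.natAbs
      omega
    · show v.natAbs ≤ u.natAbs + v.natAbs
      omega

/-- **pairs of coprime integers with a small radical** -/
theorem pairs_count {lam θ : ℝ} (h : StmtCount lam θ) {ε : ℝ} (hε : 0 < ε) :
    ∃ C : ℝ, 0 ≤ C ∧ ∀ N : ℕ, 1 ≤ N → ∀ F : Finset (ℤ × ℤ),
      (∀ w ∈ F, IsCoprime w.1 w.2 ∧ w.1 ≠ 0 ∧ w.2 ≠ 0 ∧ w.1 + w.2 ≠ 0 ∧
        w.1.natAbs + w.2.natAbs ≤ N ∧
        lr w.1.natAbs + lr w.2.natAbs + lr (w.1 + w.2).natAbs ≤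
          lam * Real.log (max w.1.natAbs w.2.natAbs : ℕ)) →
      0 ≤ lam →
      (F.card : ℝ) ≤ C * (N : ℝ) ^ (θ + ε) := by
  classical
  obtain ⟨C, hC⟩ := h ε hε
  refine ⟨36 * |C|, by positivity, fun N hN F hF hlam => ?_⟩
  have hex : ∀ w ∈ F, ∃ t : ℕ × ℕ × ℕ, Srt t w.1.natAbs w.2.natAbs (w.1 + w.2).natAbs ∧
      t.2.2 ≤ N ∧ (rad (t.1 * t.2.1 * t.2.2) : ℝ) ≤ (t.2.2 : ℝ) ^ lam := by
    intro w hw
    obtain ⟨h1, h2, h3, h4, h5, h6⟩ := hF w hw
    obtain ⟨t, ht, hmax, hle⟩ := srt_int h1 h2 h3 h4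
    refine ⟨t, ht, hle.trans h5, ?_⟩
    have hc0 : (0 : ℝ) < (t.2.2 : ℝ) := by exact_mod_cast ht.tr.2.2.1
    have hr0 : 0 < rad (t.1 * t.2.1 * t.2.2) :=
      Finset.prod_pos fun p hp => (Nat.prime_of_mem_primeFactors hp).pos
    have hr0' : (0 : ℝ) < (rad (t.1 * t.2.1 * t.2.2) : ℝ) := by exact_mod_cast hr0
    rw [Real.le_rpow_iff_log_le hr0' hc0, log_rad, ht.sm]
    refine h6.trans ?_
    apply mul_le_mul_of_nonneg_left _ hlam
    apply Real.log_le_log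
    · have : 0 < max w.1.natAbs w.2.natAbs := lt_of_lt_of_le (Int.natAbs_pos.2 h2) (le_max_left _ _)
      exact_mod_cast this
    · exact_mod_cast hmax
  choose! f hf using hex
  obtain ⟨Z, hZ⟩ : ∃ Z : Set (ℕ × ℕ × ℕ), Z = {t : ℕ × ℕ × ℕ | IsABCTriple t.1 t.2.1 t.2.2 ∧
      t.2.2 ≤ N ∧ (rad (t.1 * t.2.1 * t.2.2) : ℝ) ≤ (t.2.2 : ℝ) ^ lam} := ⟨_, rfl⟩
  have hZfin : Z.Finite := by
    refine Set.Finite.subset (Finset.finite_toSet
      ((Finset.range (N + 1)) ×ˢ (Finset.range (N + 1)) ×ˢ (Finset.range (N + 1)))) ?_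
    rintro ⟨a, b, c⟩ ht
    rw [hZ] at ht
    obtain ⟨⟨h1, h2, h3, h4, h5⟩, h6, -⟩ := ht
    simp only at h1 h2 h4 h6
    simp only [Finset.coe_product, Set.mem_prod, Finset.coe_range, Set.mem_Iio]
    omega
  have h1 : ((F.image f).card : ℝ) ≤ |C| * (N : ℝ) ^ (θ + ε) := by
    have h2 : (F.image f).card ≤ Z.ncard := by
      rw [← Set.ncard_coe_finset]
      apply Set.ncard_le_ncard _ hZfin
      intro t ht
      rw [Finset.mem_coe, Finset.mem_image] at ht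
      obtain ⟨w, hw, rfl⟩ := ht
      rw [hZ]
      exact ⟨(hf w hw).1.tr, (hf w hw).2.1, (hf w hw).2.2⟩
    have h3 := hC N hN
    rw [← hZ] at h3
    calc ((F.image f).card : ℝ) ≤ (Z.ncard : ℝ) := by exact_mod_cast h2
      _ ≤ C * (N : ℝ) ^ (θ + ε) := h3
      _ ≤ |C| * (N : ℝ) ^ (θ + ε) := by
        apply mul_le_mul_of_nonneg_right (le_abs_self C) (by positivity)
  have h2 : F.card ≤ 36 * (F.image f).card := by
    refine Finset.card_le_mul_card_image F 36 fun t ht => ?_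
    have hsub : F.filter (fun w => f w = t) ⊆
        (({(t.1 : ℤ), -(t.1 : ℤ), (t.2.1 : ℤ), -(t.2.1 : ℤ), (t.2.2 : ℤ), -(t.2.2 : ℤ)} :
          Finset ℤ) ×ˢ
        ({(t.1 : ℤ), -(t.1 : ℤ), (t.2.1 : ℤ), -(t.2.1 : ℤ), (t.2.2 : ℤ), -(t.2.2 : ℤ)} :
          Finset ℤ)) := by
      intro w hw
      obtain ⟨g1, g2⟩ := Finset.mem_filter.1 hw
      have hs := (hf w g1).1
      rw [g2] at hs
      rw [Finset.mem_product]
      have key : ∀ z : ℤ, (z.natAbs = t.1 ∨ z.natAbs = t.2.1 ∨ z.natAbs = t.2.2) →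
          z ∈ ({(t.1 : ℤ), -(t.1 : ℤ), (t.2.1 : ℤ), -(t.2.1 : ℤ), (t.2.2 : ℤ), -(t.2.2 : ℤ)} :
            Finset ℤ) := by
        intro z hz
        simp only [Finset.mem_insert, Finset.mem_singleton]
        omega
      exact ⟨key _ hs.ix, key _ hs.iy⟩
    refine (Finset.card_le_card hsub).trans ?_
    rw [Finset.card_product]
    have h6 : ({(t.1 : ℤ), -(t.1 : ℤ), (t.2.1 : ℤ), -(t.2.1 : ℤ), (t.2.2 : ℤ), -(t.2.2 : ℤ)} :
          Finset ℤ).card ≤ 6 := Finset.card_le_six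
    calc _ ≤ 6 * 6 := Nat.mul_le_mul h6 h6
      _ = 36 := by norm_num
  have h3 : (F.card : ℝ) ≤ 36 * ((F.image f).card : ℝ) := by exact_mod_cast h2
  calc (F.card : ℝ) ≤ 36 * ((F.image f).card : ℝ) := h3
    _ ≤ 36 * (|C| * (N : ℝ) ^ (θ + ε)) := by linarith
    _ = _ := by ring

end Pool.Agent.N633.P1
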