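import Pool.Agent.N633.P1.Pairs
import Pool.Agent.TH867.QF.Basic

/-!
Points of the projective line over the rationals with a small truncated counting function relative
to three of finitely many rational points (helper633). The reduction follows
`Pool.Agent.TH867.SQ.Line` (helper867).
-/

set_option autoImplicit false

namespace Pool.Agent.N633.P1

open Finset Pool.Agent.H705R2.ABC
open Pool.Agent.TH867.QF (Fm ev va rs Rs Rs_pos rs_dvd Pt va_pos lin3 dt proportional ht ht_pos
  ht_le va_le cross1 cross2 U U_pos)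

variable {r : ℕ}

theorem lr_rs (L : Fm r) {i j : Fin r} (h : i ≠ j) : lr (rs L i j).natAbs ≤ Real.log (Rs L) := by
  have h1 : (rs L i j).natAbs ≠ 0 := (Int.natAbs_pos.2 (L.res i j h)).ne'
  refine (lr_le_log h1).trans ?_
  refine Real.log_le_log (by exact_mod_cast Nat.pos_of_ne_zero h1) ?_
  exact_mod_cast Nat.le_of_dvd (Rs_pos L) (rs_dvd L h)

/-- three light indices -/
theorem three_light {d : ℕ} (f : Fin (d + 3) → ℝ) :
    ∃ a b c : Fin (d + 3), a ≠ b ∧ b ≠ c ∧ a ≠ c ∧
      f a + f b + f c ≤ 3 / ((d : ℝ) + 3) * ∑ j, f j := by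
  classical
  obtain ⟨a, -, ha⟩ := Finset.exists_min_image (Finset.univ : Finset (Fin (d + 3))) f
    Finset.univ_nonempty
  have hn1 : ((Finset.univ : Finset (Fin (d + 3))).erase a).Nonempty := by
    rw [← Finset.card_pos, Finset.card_erase_of_mem (Finset.mem_univ _), Finset.card_univ,
      Fintype.card_fin]
    omega
  obtain ⟨b, hb, hbmin⟩ := Finset.exists_min_image _ f hn1
  have hn2 : (((Finset.univ : Finset (Fin (d + 3))).erase a).erase b).Nonempty := by
    rw [← Finset.card_pos, Finset.card_erase_of_mem hb, Finset.card_erase_of_mem (Finset.mem_univ _),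
      Finset.card_univ, Fintype.card_fin]
    omega
  obtain ⟨c, hc, hcmin⟩ := Finset.exists_min_image _ f hn2
  have hba : b ≠ a := (Finset.mem_erase.1 hb).1
  have hcb : c ≠ b := (Finset.mem_erase.1 hc).1
  have hca : c ≠ a := (Finset.mem_erase.1 (Finset.mem_erase.1 hc).2).1
  refine ⟨a, b, c, hba.symm, hcb.symm, hca.symm, ?_⟩
  have h1 : ∑ j, f j = f a + (f b + ∑ j ∈ (Finset.univ.erase a).erase b, f j) := by
    rw [Finset.add_sum_erase _ f hb, Finset.add_sum_erase _ f (Finset.mem_univ a)]
  have h2 : ((d : ℝ) + 1) * f c ≤ ∑ j ∈ (Finset.univ.erase a).erase b, f j := by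
    have h3 := Finset.card_nsmul_le_sum ((Finset.univ.erase a).erase b) f (f c) hcmin
    rw [Finset.card_erase_of_mem hb, Finset.card_erase_of_mem (Finset.mem_univ _),
      Finset.card_univ, Fintype.card_fin, nsmul_eq_mul] at h3
    have h4 : ((d + 3 - 1 - 1 : ℕ) : ℝ) = (d : ℝ) + 1 := by
      have : d + 3 - 1 - 1 = d + 1 := by omega
      rw [this]
      push_cast
      ring
    rwa [h4] at h3
  have h5 : f b ≤ f c := hbmin c (Finset.mem_erase.2 ⟨hca, Finset.mem_univ _⟩)
  have h6 : f a ≤ f b := ha b (Finset.mem_univ _)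
  have hd : (0 : ℝ) < (d : ℝ) + 3 := by positivity
  rw [div_mul_eq_mul_div, le_div_iff₀ hd, h1]
  have h7 : 0 ≤ (d : ℝ) * (f c - f b) := mul_nonneg (Nat.cast_nonneg _) (by linarith)
  have h8 : 0 ≤ (d : ℝ) * (f c - f a) := mul_nonneg (Nat.cast_nonneg _) (by linarith)
  nlinarith

/-- **points with three light forms, by height** -/
theorem points_count (L : Fm r) {lam θ κ s : ℝ} (h : StmtCount lam θ) (hκ : 0 ≤ κ) (hlam : κ < lam)
    (hθ : 0 ≤ θ) {ε : ℝ} (hε : 0 < ε) :
    ∃ C : ℝ, 0 < C ∧ ∀ B : ℕ, 1 ≤ B → ∀ F : Finset (ℤ × ℤ), (∀ P ∈ F, Pt L P ∧ ht P ≤ B ∧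
      ∃ a b c : Fin r, a ≠ b ∧ b ≠ c ∧ a ≠ c ∧
      lr (va L P a) + lr (va L P b) + lr (va L P c) ≤ κ * Real.log (ht P) + s) →
    (F.card : ℝ) ≤ C * (B : ℝ) ^ (θ + ε) := by
  classical
  obtain ⟨C, hC0, hC⟩ := pairs_count h hε
  obtain ⟨R, hR⟩ : ∃ R : ℝ, R = (Rs L : ℝ) := ⟨_, rfl⟩
  have hR1 : 1 ≤ R := by rw [hR]; exact_mod_cast Rs_pos L
  have hR0 : 0 < R := by linarith
  obtain ⟨u, hu⟩ : ∃ u : ℝ, u = (U L : ℝ) := ⟨_, rfl⟩
  have hu1 : 1 ≤ u := by rw [hu]; exact_mod_cast U_pos L
  have hu0 : 0 < u := by linarith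
  have hlam0 : 0 ≤ lam := hκ.trans hlam.le
  obtain ⟨c0, hc0⟩ : ∃ c0 : ℝ, c0 = (|s| + 3 * Real.log R + lam * Real.log (u * R ^ 3)) /
    (lam - κ) := ⟨_, rfl⟩
  have hlk : 0 < lam - κ := by linarith
  obtain ⟨H0, hH0⟩ := exists_nat_ge (Real.exp c0)
  -- the sets for given indices
  refine ⟨(2 * (H0 : ℝ) + 1) ^ 2 + (r : ℝ) ^ 3 * (2 * (C * (2 * R * u) ^ (θ + ε))), by positivity,
    fun B hB F hF => ?_⟩
  have hB1 : (1 : ℝ) ≤ B := by exact_mod_cast hB
  have hB0 : (0 : ℝ) < B := by linarith
  have hBe : 1 ≤ (B : ℝ) ^ (θ + ε) := Real.one_le_rpow hB1 (by positivity)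
  obtain ⟨G, hG⟩ : ∃ G : Fin r × Fin r × Fin r → Finset (ℤ × ℤ), G = fun σ => F.filter fun P =>
      σ.1 ≠ σ.2.1 ∧ σ.2.1 ≠ σ.2.2 ∧ σ.1 ≠ σ.2.2 ∧ H0 < ht P ∧
      lr (va L P σ.1) + lr (va L P σ.2.1) + lr (va L P σ.2.2) ≤ κ * Real.log (ht P) + s :=
    ⟨_, rfl⟩
  obtain ⟨box, hbox⟩ : ∃ box : Finset (ℤ × ℤ), box = (Finset.Icc (-(H0 : ℤ)) H0) ×ˢ
    (Finset.Icc (-(H0 : ℤ)) H0) := ⟨_, rfl⟩
  have hboxc : (box.card : ℝ) = (2 * (H0 : ℝ) + 1) ^ 2 := by
    rw [hbox, Finset.card_product, Int.card_Icc]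
    have : ((H0 : ℤ) + 1 - -(H0 : ℤ)).toNat = 2 * H0 + 1 := by omega
    rw [this]
    push_cast
    ring
  have hcov : F ⊆ box ∪ (Finset.univ : Finset (Fin r × Fin r × Fin r)).biUnion G := by
    intro P hP
    obtain ⟨-, -, a, b, c, h1, h2, h3, h4⟩ := hF P hP
    rw [Finset.mem_union]
    rcases le_or_gt (ht P) H0 with h5 | h5
    · left
      rw [hbox, Finset.mem_product, Finset.mem_Icc, Finset.mem_Icc]
      have g1 : P.1.natAbs ≤ ht P := le_max_left _ _
      have g2 : P.2.natAbs ≤ ht P := le_max_right _ _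
      omega
    · right
      rw [Finset.mem_biUnion]
      refine ⟨(a, b, c), Finset.mem_univ _, ?_⟩
      rw [hG]
      exact Finset.mem_filter.2 ⟨hP, h1, h2, h3, h5, h4⟩
  obtain ⟨N, hN⟩ : ∃ N : ℕ, N = 2 * Rs L * U L * B := ⟨_, rfl⟩
  have hNR : (N : ℝ) = 2 * R * u * B := by
    rw [hN, hR, hu]
    push_cast
    ring
  have hN1 : 1 ≤ N := by
    rw [hN]
    have h1 := Rs_pos L
    have h2 := U_pos L
    exact Nat.mul_pos (Nat.mul_pos (Nat.mul_pos (by norm_num) h1) h2) hB
  have hGc : ∀ σ : Fin r × Fin r × Fin r, ((G σ).card : ℝ) ≤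
      2 * (C * (2 * R * u) ^ (θ + ε)) * (B : ℝ) ^ (θ + ε) := by
    rintro ⟨a, b, c⟩
    have hbnd0 : 0 ≤ 2 * (C * (2 * R * u) ^ (θ + ε)) * (B : ℝ) ^ (θ + ε) := by positivity
    by_cases hab : a ≠ b
    swap
    · have : G (a, b, c) = ∅ := by
        rw [Finset.eq_empty_iff_forall_notMem]
        intro P hP
        rw [hG] at hP
        exact hab (Finset.mem_filter.1 hP).2.1
      rw [this, Finset.card_empty, Nat.cast_zero]
      exact hbnd0
    by_cases hbc : b ≠ c
    swap
    · have : G (a, b, c) = ∅ := by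
        rw [Finset.eq_empty_iff_forall_notMem]
        intro P hP
        rw [hG] at hP
        exact hbc (Finset.mem_filter.1 hP).2.2.1
      rw [this, Finset.card_empty, Nat.cast_zero]
      exact hbnd0
    by_cases hac : a ≠ c
    swap
    · have : G (a, b, c) = ∅ := by
        rw [Finset.eq_empty_iff_forall_notMem]
        intro P hP
        rw [hG] at hP
        exact hac (Finset.mem_filter.1 hP).2.2.2.1
      rw [this, Finset.card_empty, Nat.cast_zero]
      exact hbnd0
    have hmem : ∀ P ∈ G (a, b, c), Pt L P ∧ ht P ≤ B ∧ H0 < ht P ∧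
        lr (va L P a) + lr (va L P b) + lr (va L P c) ≤ κ * Real.log (ht P) + s := by
      intro P hP
      rw [hG] at hP
      obtain ⟨g1, -, -, -, g2, g3⟩ := Finset.mem_filter.1 hP
      exact ⟨(hF P g1).1, (hF P g1).2.1, g2, g3⟩
    -- the pair of a point
    obtain ⟨al, hal⟩ : ∃ al : ℤ × ℤ → ℤ, al = fun P => rs L c a * ev L P b := ⟨_, rfl⟩
    obtain ⟨be, hbe⟩ : ∃ be : ℤ × ℤ → ℤ, be = fun P => rs L a b * ev L P c := ⟨_, rfl⟩
    have hsum : ∀ P, al P + be P = - rs L b c * ev L P a := by
      intro P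
      rw [hal, hbe]
      exact lin3 L P a b c
    have rca : rs L c a ≠ 0 := L.res c a hac.symm
    have rab : rs L a b ≠ 0 := L.res a b hab
    have rbc : rs L b c ≠ 0 := L.res b c hbc
    obtain ⟨φ, hφ⟩ : ∃ φ : ℤ × ℤ → ℤ × ℤ, φ = fun P =>
        (al P / (Int.gcd (al P) (be P) : ℤ), be P / (Int.gcd (al P) (be P) : ℤ)) := ⟨_, rfl⟩
    have hal0 : ∀ P, Pt L P → al P ≠ 0 := by
      intro P hP
      rw [hal]
      exact mul_ne_zero rca (hP.ne b)
    have hbe0 : ∀ P, Pt L P → be P ≠ 0 := by
      intro P hP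
      rw [hbe]
      exact mul_ne_zero rab (hP.ne c)
    have hab0 : ∀ P, Pt L P → al P + be P ≠ 0 := by
      intro P hP
      rw [hsum]
      exact mul_ne_zero (neg_ne_zero.2 rbc) (hP.ne a)
    have hg0 : ∀ P, Pt L P → (Int.gcd (al P) (be P) : ℤ) ≠ 0 := by
      intro P hP h0
      have h1 : Int.gcd (al P) (be P) = 0 := by exact_mod_cast h0
      exact hal0 P hP (Int.gcd_eq_zero_iff.1 h1).1
    have hmul1 : ∀ P, (φ P).1 * (Int.gcd (al P) (be P) : ℤ) = al P := by
      intro P
      rw [hφ]
      exact Int.ediv_mul_cancel (Int.gcd_dvd_left _ _)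
    have hmul2 : ∀ P, (φ P).2 * (Int.gcd (al P) (be P) : ℤ) = be P := by
      intro P
      rw [hφ]
      exact Int.ediv_mul_cancel (Int.gcd_dvd_right _ _)
    -- the greatest common divisor is bounded
    have hrsle : ∀ i j : Fin r, i ≠ j → ((rs L i j).natAbs : ℝ) ≤ R := by
      intro i j hij
      rw [hR]
      exact_mod_cast Nat.le_of_dvd (Rs_pos L) (rs_dvd L hij)
    have hgle : ∀ P, Pt L P → ((Int.gcd (al P) (be P) : ℕ) : ℝ) ≤ R ^ 3 := by
      intro P hP
      obtain ⟨g, hg⟩ : ∃ g : ℤ, g = (Int.gcd (al P) (be P) : ℤ) := ⟨_, rfl⟩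
      have d1 : g ∣ al P := hg ▸ Int.gcd_dvd_left _ _
      have d2 : g ∣ be P := hg ▸ Int.gcd_dvd_right _ _
      obtain ⟨m, hm⟩ : ∃ m : ℤ, m = rs L c a * rs L a b := ⟨_, rfl⟩
      have d3 : g ∣ m * ev L P b := by
        have e : m * ev L P b = rs L a b * al P := by rw [hm, hal]; ring
        rw [e]; exact d1.mul_left _
      have d4 : g ∣ m * ev L P c := by
        have e : m * ev L P c = rs L c a * be P := by rw [hm, hbe]; ring
        rw [e]; exact d2.mul_left _
      have d5 : g ∣ m * (rs L b c * P.1) := by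
        rw [cross1]
        have e : m * (L.w c * ev L P b - L.w b * ev L P c) =
          L.w c * (m * ev L P b) - L.w b * (m * ev L P c) := by ring
        rw [e]
        exact dvd_sub (d3.mul_left _) (d4.mul_left _)
      have d6 : g ∣ m * (rs L b c * P.2) := by
        rw [cross2]
        have e : m * (L.u b * ev L P c - L.u c * ev L P b) =
          L.u b * (m * ev L P c) - L.u c * (m * ev L P b) := by ring
        rw [e]
        exact dvd_sub (d4.mul_left _) (d3.mul_left _)
      have d7 : g ∣ m * rs L b c := by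
        obtain ⟨x, y, hxy⟩ := hP.cop
        have e : m * rs L b c = x * (m * (rs L b c * P.1)) + y * (m * (rs L b c * P.2)) := by
          linear_combination (- (m * rs L b c)) * hxy
        rw [e]
        exact dvd_add (d5.mul_left _) (d6.mul_left _)
      have hne : m * rs L b c ≠ 0 := by rw [hm]; exact mul_ne_zero (mul_ne_zero rca rab) rbc
      have d8 : Int.gcd (al P) (be P) ∣ (m * rs L b c).natAbs := by
        have := Int.natAbs_dvd_natAbs.2 d7
        rwa [hg, Int.natAbs_natCast] at this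
      have d9 := Nat.le_of_dvd (Int.natAbs_pos.2 hne) d8
      have d10 : ((Int.gcd (al P) (be P) : ℕ) : ℝ) ≤ ((m * rs L b c).natAbs : ℝ) := by
        exact_mod_cast d9
      refine d10.trans ?_
      rw [hm, Int.natAbs_mul, Int.natAbs_mul]
      push_cast
      have i1 := hrsle c a hac.symm
      have i2 := hrsle a b hab
      have i3 := hrsle b c hbc
      calc ((rs L c a).natAbs : ℝ) * ((rs L a b).natAbs : ℝ) * ((rs L b c).natAbs : ℝ)
          ≤ R * R * R := by gcongr
        _ = R ^ 3 := by ring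
    have key := hC N hN1 ((G (a, b, c)).image φ) (fun w hw => by
      obtain ⟨P, hP, rfl⟩ := Finset.mem_image.1 hw
      obtain ⟨hpt, hb, hH, h4⟩ := hmem P hP
      have a0 := hal0 P hpt
      have b0 := hbe0 P hpt
      have s0 := hab0 P hpt
      have g0 := hg0 P hpt
      have m1 := hmul1 P
      have m2 := hmul2 P
      have d1 : (φ P).1 ∣ al P := ⟨_, m1.symm⟩
      have d2 : (φ P).2 ∣ be P := ⟨_, m2.symm⟩
      have d3 : (φ P).1 + (φ P).2 ∣ al P + be P :=
        ⟨(Int.gcd (al P) (be P) : ℤ), by rw [add_mul, m1, m2]⟩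
      have e1 : lr (φ P).1.natAbs ≤ lr (va L P b) + Real.log R := by
        refine (lr_dvd (Int.natAbs_ne_zero.2 a0) (Int.natAbs_dvd_natAbs.2 d1)).trans ?_
        rw [hal]
        simp only
        rw [Int.natAbs_mul]
        refine (lr_mul _ _ (Int.natAbs_ne_zero.2 rca) (va_pos hpt b).ne').trans ?_
        have := lr_rs L hac.symm
        rw [← hR] at this
        unfold va
        linarith
      have e2 : lr (φ P).2.natAbs ≤ lr (va L P c) + Real.log R := by
        refine (lr_dvd (Int.natAbs_ne_zero.2 b0) (Int.natAbs_dvd_natAbs.2 d2)).trans ?_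
        rw [hbe]
        simp only
        rw [Int.natAbs_mul]
        refine (lr_mul _ _ (Int.natAbs_ne_zero.2 rab) (va_pos hpt c).ne').trans ?_
        have := lr_rs L hab
        rw [← hR] at this
        unfold va
        linarith
      have e3 : lr ((φ P).1 + (φ P).2).natAbs ≤ lr (va L P a) + Real.log R := by
        refine (lr_dvd (Int.natAbs_ne_zero.2 s0) (Int.natAbs_dvd_natAbs.2 d3)).trans ?_
        rw [hsum, Int.natAbs_mul, Int.natAbs_neg]
        refine (lr_mul _ _ (Int.natAbs_ne_zero.2 rbc) (va_pos hpt a).ne').trans ?_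
        have := lr_rs L hbc
        rw [← hR] at this
        unfold va
        linarith
      have w10 : (φ P).1 ≠ 0 := by
        intro h0
        rw [h0, zero_mul] at m1
        exact a0 m1.symm
      have w20 : (φ P).2 ≠ 0 := by
        intro h0
        rw [h0, zero_mul] at m2
        exact b0 m2.symm
      -- heights
      have hhp : 0 < ht P := ht_pos hpt
      have hhpR : (0 : ℝ) < ht P := by exact_mod_cast hhp
      have n1 : (φ P).1.natAbs * Int.gcd (al P) (be P) = (al P).natAbs := by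
        rw [← m1, Int.natAbs_mul, Int.natAbs_natCast]
        rw [m1]
      have n2 : (φ P).2.natAbs * Int.gcd (al P) (be P) = (be P).natAbs := by
        rw [← m2, Int.natAbs_mul, Int.natAbs_natCast]
        rw [m2]
      have q1 : va L P b ≤ (al P).natAbs := by
        rw [hal]
        simp only
        rw [Int.natAbs_mul]
        exact Nat.le_mul_of_pos_left _ (Int.natAbs_pos.2 rca)
      have q2 : va L P c ≤ (be P).natAbs := by
        rw [hbe]
        simp only
        rw [Int.natAbs_mul]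
        exact Nat.le_mul_of_pos_left _ (Int.natAbs_pos.2 rab)
      obtain ⟨Mx, hMx⟩ : ∃ Mx, Mx = max (φ P).1.natAbs (φ P).2.natAbs := ⟨_, rfl⟩
      have hMx0 : 0 < Mx := by
        rw [hMx]
        exact lt_of_lt_of_le (Int.natAbs_pos.2 w10) (le_max_left _ _)
      have q3 : max (va L P b) (va L P c) ≤ Mx * Int.gcd (al P) (be P) := by
        refine max_le ?_ ?_
        · refine q1.trans ?_
          rw [← n1]
          exact Nat.mul_le_mul_right _ (by rw [hMx]; exact le_max_left _ _)
        · refine q2.trans ?_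
          rw [← n2]
          exact Nat.mul_le_mul_right _ (by rw [hMx]; exact le_max_right _ _)
      have q4 : (ht P : ℝ) ≤ Mx * (u * R ^ 3) := by
        have q5 : ht P ≤ U L * (Mx * Int.gcd (al P) (be P)) :=
          (ht_le L P hbc).trans (Nat.mul_le_mul_left _ q3)
        have q6 : (ht P : ℝ) ≤ u * (Mx * ((Int.gcd (al P) (be P) : ℕ) : ℝ)) := by
          rw [hu]
          exact_mod_cast q5
        refine q6.trans ?_
        have q7 := hgle P hpt
        have q8 : (0 : ℝ) ≤ Mx := Nat.cast_nonneg _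
        calc u * (Mx * ((Int.gcd (al P) (be P) : ℕ) : ℝ)) ≤ u * (Mx * R ^ 3) := by gcongr
          _ = Mx * (u * R ^ 3) := by ring
      have hMxR : (0 : ℝ) < Mx := by exact_mod_cast hMx0
      have hlogM : Real.log (ht P) ≤ Real.log Mx + Real.log (u * R ^ 3) := by
        rw [← Real.log_mul hMxR.ne' (by positivity)]
        exact Real.log_le_log hhpR q4
      have hlogH : c0 ≤ Real.log (ht P) := by
        rw [Real.le_log_iff_exp_le hhpR]
        have : (H0 : ℝ) ≤ ht P := by exact_mod_cast hH.le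
        linarith
      refine ⟨?_, w10, w20, ?_, ?_, ?_⟩
      · rw [Int.isCoprime_iff_gcd_eq_one, hφ]
        simp only
        refine Int.gcd_ediv_gcd_ediv_gcd ?_
        have h1 : Int.gcd (al P) (be P) ≠ 0 := by
          intro h0
          exact g0 (by rw [h0]; rfl)
        exact Nat.pos_of_ne_zero h1
      · intro h0
        apply s0
        have e4 : al P + be P = ((φ P).1 + (φ P).2) * (Int.gcd (al P) (be P) : ℤ) := by
          rw [add_mul, m1, m2]
        rw [e4, h0, zero_mul]
      · have z1 : (φ P).1.natAbs ≤ (al P).natAbs :=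
          Nat.le_of_dvd (Int.natAbs_pos.2 a0) (Int.natAbs_dvd_natAbs.2 d1)
        have z2 : (φ P).2.natAbs ≤ (be P).natAbs :=
          Nat.le_of_dvd (Int.natAbs_pos.2 b0) (Int.natAbs_dvd_natAbs.2 d2)
        have z3 : (al P).natAbs ≤ Rs L * (U L * B) := by
          rw [hal]
          simp only
          rw [Int.natAbs_mul]
          refine Nat.mul_le_mul (Nat.le_of_dvd (Rs_pos L) (rs_dvd L hac.symm)) ?_
          exact (va_le L P b).trans (Nat.mul_le_mul_left _ hb)
        have z4 : (be P).natAbs ≤ Rs L * (U L * B) := by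
          rw [hbe]
          simp only
          rw [Int.natAbs_mul]
          refine Nat.mul_le_mul (Nat.le_of_dvd (Rs_pos L) (rs_dvd L hab)) ?_
          exact (va_le L P c).trans (Nat.mul_le_mul_left _ hb)
        have z5 : N = Rs L * (U L * B) + Rs L * (U L * B) := by rw [hN]; ring
        omega
      · rw [← hMx]
        have y1 : Real.log (ht P) * (lam - κ) ≥ c0 * (lam - κ) :=
          mul_le_mul_of_nonneg_right hlogH hlk.le
        rw [hc0, div_mul_cancel₀ _ hlk.ne'] at y1
        have y2 : lam * Real.log (ht P) ≤ lam * (Real.log Mx + Real.log (u * R ^ 3)) :=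
          mul_le_mul_of_nonneg_left hlogM hlam0
        have y3 := le_abs_self s
        linarith) hlam0
    have hfib : (G (a, b, c)).card ≤ 2 * ((G (a, b, c)).image φ).card := by
      refine Finset.card_le_mul_card_image _ 2 fun w hw => ?_
      rcases ((G (a, b, c)).filter fun P => φ P = w).eq_empty_or_nonempty with he | ⟨P0, hP0⟩
      · rw [he, Finset.card_empty]
        exact Nat.zero_le _
      · obtain ⟨q1, q2⟩ := Finset.mem_filter.1 hP0
        have hpt0 := (hmem P0 q1).1
        have hsub : ((G (a, b, c)).filter fun P => φ P = w) ⊆ {P0, (-P0.1, -P0.2)} := by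
          intro P hP
          obtain ⟨q3, q4⟩ := Finset.mem_filter.1 hP
          have hpt := (hmem P q3).1
          have hd : dt P0 P = 0 := by
            have m1 := hmul1 P
            have m2 := hmul2 P
            have n1 := hmul1 P0
            have n2 := hmul2 P0
            rw [q4] at m1 m2
            rw [q2] at n1 n2
            have e1 : al P0 * be P = al P * be P0 := by
              calc al P0 * be P = (w.1 * (Int.gcd (al P0) (be P0) : ℤ)) *
                    (w.2 * (Int.gcd (al P) (be P) : ℤ)) := by rw [n1, m2]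
                _ = (w.1 * (Int.gcd (al P) (be P) : ℤ)) *
                    (w.2 * (Int.gcd (al P0) (be P0) : ℤ)) := by ring
                _ = al P * be P0 := by rw [m1, n2]
            rw [hal, hbe] at e1
            simp only at e1
            have e2 : (rs L c a * rs L a b * rs L b c) * dt P0 P = 0 := by
              have e3 : rs L b c * dt P0 P =
                  ev L P0 b * ev L P c - ev L P b * ev L P0 c := by
                unfold rs dt ev; ring
              calc (rs L c a * rs L a b * rs L b c) * dt P0 P =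
                  (rs L c a * rs L a b) * (rs L b c * dt P0 P) := by ring
                _ = (rs L c a * ev L P0 b) * (rs L a b * ev L P c) -
                    (rs L c a * ev L P b) * (rs L a b * ev L P0 c) := by rw [e3]; ring
                _ = 0 := by rw [e1, sub_self]
            rcases mul_eq_zero.1 e2 with h0 | h0
            · exact absurd h0 (mul_ne_zero (mul_ne_zero rca rab) rbc)
            · exact h0
          obtain ⟨s, hs, s1, s2⟩ := proportional hpt0.cop hpt.cop hd
          rw [Finset.mem_insert, Finset.mem_singleton]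
          rcases hs with rfl | rfl
          · left
            exact Prod.ext (by rw [s1, one_mul]) (by rw [s2, one_mul])
          · right
            exact Prod.ext (by rw [s1]; ring) (by rw [s2]; ring)
        exact (Finset.card_le_card hsub).trans Finset.card_le_two
    have hfib' : ((G (a, b, c)).card : ℝ) ≤ 2 * (((G (a, b, c)).image φ).card : ℝ) := by
      exact_mod_cast hfib
    rw [hNR, Real.mul_rpow (by positivity) hB0.le] at key
    calc ((G (a, b, c)).card : ℝ) ≤ 2 * (((G (a, b, c)).image φ).card : ℝ) := hfib'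
      _ ≤ 2 * (C * ((2 * R * u) ^ (θ + ε) * (B : ℝ) ^ (θ + ε))) := by linarith
      _ = _ := by ring
  have h1 : (F.card : ℝ) ≤ (box.card : ℝ) + ∑ σ : Fin r × Fin r × Fin r, ((G σ).card : ℝ) := by
    have := (Finset.card_le_card hcov).trans ((Finset.card_union_le _ _).trans
      (Nat.add_le_add_left Finset.card_biUnion_le _))
    exact_mod_cast this
  have h2 := Finset.sum_le_sum fun (σ : Fin r × Fin r × Fin r) (_ : σ ∈ Finset.univ) => hGc σ
  rw [Finset.sum_const, Finset.card_univ, Fintype.card_prod, Fintype.card_prod, Fintype.card_fin,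
    nsmul_eq_mul] at h2
  rw [hboxc] at h1
  have h4 : ((r * (r * r) : ℕ) : ℝ) = (r : ℝ) ^ 3 := by
    push_cast
    ring
  rw [h4] at h2
  have h5 : (2 * (H0 : ℝ) + 1) ^ 2 ≤ (2 * (H0 : ℝ) + 1) ^ 2 * (B : ℝ) ^ (θ + ε) :=
    le_mul_of_one_le_right (by positivity) hBe
  calc (F.card : ℝ) ≤ (2 * (H0 : ℝ) + 1) ^ 2 * (B : ℝ) ^ (θ + ε) +
        (r : ℝ) ^ 3 * (2 * (C * (2 * R * u) ^ (θ + ε)) * (B : ℝ) ^ (θ + ε)) := by linarith
    _ = _ := by ring

end Pool.Agent.N633.P1
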